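import Pool.Agent.W_448kk_h94.KkC
import Pool.Agent.W_448win_h16.CoreC

/-! The (k,k) identity, matching form (MP_448cb3_co). -/

namespace Pool.Agent.GaussPoset.Win

set_option linter.unusedSectionVars false

open Finset

universe u

section gen

variable {α β : Type*} [DecidableEq α] [DecidableEq β]

/-- systems of representatives of `M` -/
noncomputable def SR (N : Finset α) (t : α → β) (M : Finset β) : Finset (Finset α) := by
  classical exact N.powerset.filter (fun F => Set.InjOn t F ∧ F.image t = M)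

lemma mem_SR {N : Finset α} {t : α → β} {M : Finset β} {F : Finset α} :
    F ∈ SR N t M ↔ F ⊆ N ∧ Set.InjOn t F ∧ F.image t = M := by
  classical
  unfold SR
  rw [mem_filter, mem_powerset]

/-- product over `M` of sums over the fibres -/
theorem prod_fib (N : Finset α) (t : α → β) (s : α → ℤ) (M : Finset β) :
    ∏ T ∈ M, ∑ x ∈ N.filter (fun x => t x = T), s x = ∑ F ∈ SR N t M, ∏ x ∈ F, s x := by
  induction M using Finset.induction_on with
  | empty =>
    have h : SR N t (∅ : Finset β) = {∅} := by
      ext F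
      rw [mem_SR, mem_singleton]
      constructor
      · rintro ⟨_, _, h3⟩
        exact image_eq_empty.1 h3
      · rintro rfl
        exact ⟨empty_subset _, by simp, image_empty _⟩
    rw [h, sum_singleton, prod_empty, prod_empty]
  | insert T M hT ih =>
    rw [prod_insert hT, ih, sum_mul_sum, ← sum_product']
    refine Finset.sum_nbij (fun p => insert p.1 p.2) ?_ ?_ ?_ ?_
    · rintro ⟨x, F⟩ hp
      rw [mem_product, mem_filter, mem_SR] at hp
      obtain ⟨⟨h1, h2⟩, h3, h4, h5⟩ := hp
      show insert x F ∈ _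
      have hxT : ∀ y ∈ F, t y ≠ T := by
        intro y hy h
        apply hT
        rw [← h5, ← h]
        exact mem_image_of_mem t hy
      rw [mem_SR]
      refine ⟨insert_subset h1 h3, ?_, ?_⟩
      · intro a ha b hb hab
        rw [mem_coe, mem_insert] at ha hb
        rcases ha with rfl | ha <;> rcases hb with rfl | hb
        · rfl
        · exact absurd (hab.symm.trans h2) (hxT b hb)
        · exact absurd (hab.trans h2) (hxT a ha)
        · exact h4 (mem_coe.2 ha) (mem_coe.2 hb) hab
      · rw [image_insert, h5]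
        exact congrArg (fun y => insert y M) h2
    · rintro ⟨x, F⟩ hp ⟨y, G⟩ hq h
      rw [mem_coe, mem_product, mem_filter, mem_SR] at hp hq
      obtain ⟨⟨h1, h2⟩, h3, h4, h5⟩ := hp
      obtain ⟨⟨h1', h2'⟩, h3', h4', h5'⟩ := hq
      simp only at h1 h2 h3 h4 h5 h1' h2' h3' h4' h5' h
      have hF : ∀ z ∈ F, t z ≠ T := by
        intro z hz h
        apply hT
        rw [← h5, ← h]
        exact mem_image_of_mem t hz
      have hG : ∀ z ∈ G, t z ≠ T := by
        intro z hz h
        apply hT
        rw [← h5', ← h]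
        exact mem_image_of_mem t hz
      have hxy : x = y := by
        have h6 : x ∈ insert y G := by
          rw [← h]
          exact mem_insert_self _ _
        rcases mem_insert.1 h6 with h7 | h7
        · exact h7
        · exact absurd h2 (hG x h7)
      subst hxy
      have h6 : F = G := by
        rw [← erase_insert (a := x) (s := F) (fun h7 => hF x h7 h2),
          ← erase_insert (a := x) (s := G) (fun h7 => hG x h7 h2), h]
      rw [h6]
    · intro F hF
      rw [mem_coe, mem_SR] at hF
      obtain ⟨h1, h2, h3⟩ := hF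
      have h4 : T ∈ F.image t := by
        rw [h3]
        exact mem_insert_self _ _
      obtain ⟨x, hx, hxT⟩ := mem_image.1 h4
      refine ⟨⟨x, F.erase x⟩, ?_, insert_erase hx⟩
      rw [mem_coe, mem_product, mem_filter, mem_SR]
      refine ⟨⟨h1 hx, hxT⟩, (erase_subset _ _).trans h1, ?_, ?_⟩
      · intro a ha b hb hab
        rw [mem_coe, mem_erase] at ha hb
        exact h2 (mem_coe.2 ha.2) (mem_coe.2 hb.2) hab
      · show (F.erase x).image t = M
        ext S
        rw [mem_image]
        constructor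
        · rintro ⟨a, ha, rfl⟩
          rw [mem_erase] at ha
          have h5 : t a ∈ insert T M := by
            rw [← h3]
            exact mem_image_of_mem t ha.2
          rcases mem_insert.1 h5 with h6 | h6
          · exact absurd (h2 (mem_coe.2 ha.2) (mem_coe.2 hx) (h6.trans hxT.symm)) ha.1
          · exact h6
        · intro hS
          have h5 : S ∈ F.image t := by
            rw [h3]
            exact mem_insert_of_mem hS
          obtain ⟨a, ha, rfl⟩ := mem_image.1 h5
          refine ⟨a, mem_erase.2 ⟨?_, ha⟩, rfl⟩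
          rintro rfl
          rw [hxT] at hS
          exact hT hS
    · rintro ⟨x, F⟩ hp
      rw [mem_product, mem_filter, mem_SR] at hp
      obtain ⟨⟨h1, h2⟩, h3, h4, h5⟩ := hp
      show s x * ∏ y ∈ F, s y = ∏ y ∈ insert x F, s y
      rw [prod_insert]
      intro h
      apply hT
      rw [← h5, ← h2]
      exact mem_image_of_mem t h

end gen

variable {P : Type u} [Fintype P] [PartialOrder P] [DecidableEq P] {r : ℕ}

/-- the defect of a set of sites: double lower minus double upper elements with this set of sites -/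
noncomputable def Df (i : ℕ) (T : Finset P) : ℤ := (CoreC_L i T).card - (CoreC_U i T).card

/-- the defect of a pair: common lower covers minus common upper covers -/
lemma Df_pair (H : Gr P r) {i : ℕ} {v v' : P} (hv : lev v = i) (hne : v ≠ v') :
    Df i {v, v'} = (dcv v v' : ℤ) - (ucv v v' : ℤ) := by
  unfold Df
  rw [CoreC_L_pair H hv hne, CoreC_U_pair H hv hne]

/-- sign of a near element -/
noncomputable def sgn (i : ℕ) (x : P) : ℤ := if x ∈ dbU P i then -1 else 1

lemma prod_sgn (i : ℕ) (F : Finset P) : ∏ x ∈ F, sgn i x = (-1 : ℤ) ^ (F ∩ dbU P i).card := by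
  unfold sgn
  rw [prod_ite, prod_const, prod_const_one, mul_one]
  congr 2

lemma sum_fib {i : ℕ} (T : Finset P) :
    ∑ x ∈ (dbL P i ∪ dbU P i).filter (fun x => ns i x = T), sgn i x = Df i T := by
  have h1 : (dbL P i ∪ dbU P i).filter (fun x => ns i x = T) = CoreC_L i T ∪ CoreC_U i T := by
    ext x
    rw [mem_filter, mem_union, mem_union, mem_CoreC_L, mem_CoreC_U]
    constructor
    · rintro ⟨h | h, h2⟩
      · rw [ns_L h] at h2
        exact Or.inl ⟨h, h2⟩
      · rw [ns_U h] at h2
        exact Or.inr ⟨h, h2⟩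
    · rintro (⟨h, h2⟩ | ⟨h, h2⟩)
      · exact ⟨Or.inl h, by rw [ns_L h]; exact h2⟩
      · exact ⟨Or.inr h, by rw [ns_U h]; exact h2⟩
  have h2 : Disjoint (CoreC_L i T) (CoreC_U i T) := by
    rw [disjoint_left]
    intro x hx hy
    have h3 := (mem_dbL.1 (mem_CoreC_L.1 hx).1).1
    have h4 := (mem_dbU.1 (mem_CoreC_U.1 hy).1).1
    omega
  rw [h1, sum_union h2]
  have h3 : ∑ x ∈ CoreC_L i T, sgn i x = ∑ x ∈ CoreC_L i T, 1 := by
    refine sum_congr rfl fun x hx => ?_
    unfold sgn
    rw [if_neg]
    intro h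
    have h3 := (mem_dbL.1 (mem_CoreC_L.1 hx).1).1
    have h4 := (mem_dbU.1 h).1
    omega
  have h4 : ∑ x ∈ CoreC_U i T, sgn i x = ∑ x ∈ CoreC_U i T, -1 := by
    refine sum_congr rfl fun x hx => ?_
    unfold sgn
    rw [if_pos (mem_CoreC_U.1 hx).1]
  rw [h3, h4]
  unfold Df
  simp only [sum_const, smul_eq_mul, nsmul_eq_mul, mul_one]
  ring

open Classical in
/-- matchings of size `k` on the sites -/
noncomputable def MM (P : Type u) [Fintype P] [PartialOrder P] [DecidableEq P] (i k : ℕ) :
    Finset (Finset (Finset P)) :=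
  (((lv P i).powersetCard 2).powersetCard k).filter
    (fun M => ∀ S ∈ M, ∀ T ∈ M, S ≠ T → Disjoint S T)

lemma mem_MM {i k : ℕ} {M : Finset (Finset P)} : M ∈ MM P i k ↔
    (∀ T ∈ M, T ⊆ lv P i ∧ T.card = 2) ∧ M.card = k ∧ ∀ S ∈ M, ∀ T ∈ M, S ≠ T → Disjoint S T := by
  classical
  unfold MM
  rw [mem_filter, mem_powersetCard]
  constructor
  · rintro ⟨⟨h1, h2⟩, h3⟩
    exact ⟨fun T hT => mem_powersetCard.1 (h1 hT), h2, h3⟩
  · rintro ⟨h1, h2, h3⟩
    exact ⟨⟨fun T hT => mem_powersetCard.2 (h1 T hT), h2⟩, h3⟩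

lemma fib_FF (H : Gr P r) {i k : ℕ} {M : Finset (Finset P)} (hM : M ∈ MM P i k) :
    (FF P i k).filter (fun F => F.image (ns i) = M) = SR (dbL P i ∪ dbU P i) (ns i) M := by
  rw [mem_MM] at hM
  ext F
  rw [mem_filter, mem_FF, mem_SR]
  constructor
  · rintro ⟨⟨h1, h2⟩, h3⟩
    refine ⟨h1.1, ?_, h3⟩
    intro a ha b hb hab
    by_contra hne
    have h4 := h1.2 a (mem_coe.1 ha) b (mem_coe.1 hb) hne
    rw [hab, disjoint_self] at h4
    have h5 := ns_card (h1.1 (mem_coe.1 hb))
    rw [show ns i b = ∅ from h4, card_empty] at h5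
    omega
  · rintro ⟨h1, h2, h3⟩
    refine ⟨⟨⟨h1, ?_⟩, ?_⟩, h3⟩
    · intro x hx y hy hne
      refine hM.2.2 _ ?_ _ ?_ ?_
      · rw [← h3]
        exact mem_image_of_mem _ hx
      · rw [← h3]
        exact mem_image_of_mem _ hy
      · intro h
        exact hne (h2 (mem_coe.2 hx) (mem_coe.2 hy) h)
    · rw [← hM.2.1, ← h3, card_image_of_injOn h2]

/-- THE (k,k) IDENTITY, matching form: for `1 ≤ k` the sum over the `k`-matchings `M` on the sites of the
products of the defects is zero. -/
theorem kk_match (H : Gr P r) {i : ℕ} (hi : i ≤ r) {k : ℕ} (hk : 1 ≤ k) :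
    ∑ M ∈ MM P i k, ∏ T ∈ M, Df i T = 0 := by
  classical
  have h1 := kk H hi hk
  have h2 : ∀ F ∈ FF P i k, F.image (ns i) ∈ MM P i k := by
    intro F hF
    rw [mem_FF] at hF
    obtain ⟨h1, h2⟩ := hF
    have hinj : Set.InjOn (ns i) (F : Set P) := by
      intro a ha b hb hab
      by_contra hne
      have h4 := h1.2 a (mem_coe.1 ha) b (mem_coe.1 hb) hne
      rw [hab, disjoint_self] at h4
      have h5 := ns_card (h1.1 (mem_coe.1 hb))
      rw [show ns i b = ∅ from h4, card_empty] at h5
      omega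
    rw [mem_MM]
    refine ⟨?_, ?_, ?_⟩
    · intro T hT
      obtain ⟨x, hx, rfl⟩ := mem_image.1 hT
      exact ⟨ns_sub H (h1.1 hx), ns_card (h1.1 hx)⟩
    · rw [card_image_of_injOn hinj, h2]
    · intro S hS T hT hne
      obtain ⟨x, hx, rfl⟩ := mem_image.1 hS
      obtain ⟨y, hy, rfl⟩ := mem_image.1 hT
      refine h1.2 x hx y hy ?_
      rintro rfl
      exact hne rfl
  rw [← sum_fiberwise_of_maps_to h2] at h1
  rw [← h1]
  refine sum_congr rfl fun M hM => ?_
  rw [fib_FF H hM, prod_congr rfl (fun T _ => (sum_fib (i := i) T).symm), prod_fib]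
  exact sum_congr rfl fun F _ => prod_sgn i F

end Pool.Agent.GaussPoset.Win
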