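import Mathlib

/-! An abstract count: sites forced by labels (MP_448cb3_co). -/

namespace Pool.Agent.GaussPoset.Win

set_option linter.unusedSectionVars false

open Finset

universe u

section Abs

variable {P : Type u} [DecidableEq P]

/-- if the sum of the cardinalities is at most the cardinality of the union, the sets are disjoint -/
lemma disj_of_card_biUnion {s : Finset P} {t : P → Finset P}
    (h : ∑ x ∈ s, (t x).card ≤ (s.biUnion t).card) {x y : P} (hx : x ∈ s) (hy : y ∈ s)
    (hne : x ≠ y) : Disjoint (t x) (t y) := by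
  set s' := (s.erase x).erase y with hs'
  have hy' : y ∈ s.erase x := mem_erase.2 ⟨hne.symm, hy⟩
  have e1 : s.biUnion t = (t x ∪ t y) ∪ s'.biUnion t := by
    have h1 : s = insert x (insert y s') := by
      rw [hs', insert_erase hy', insert_erase hx]
    conv_lhs => rw [h1]
    rw [biUnion_insert, biUnion_insert, union_assoc]
  have e2 : ∑ z ∈ s, (t z).card = (t x).card + ((t y).card + ∑ z ∈ s', (t z).card) := by
    rw [hs', Finset.add_sum_erase _ (fun z => (t z).card) hy',
      Finset.add_sum_erase _ (fun z => (t z).card) hx]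
  have h3 : (s.biUnion t).card ≤ (t x ∪ t y).card + ∑ z ∈ s', (t z).card := by
    rw [e1]
    exact (card_union_le _ _).trans (Nat.add_le_add_left card_biUnion_le _)
  have h4 := card_union_add_card_inter (t x) (t y)
  rw [disjoint_iff_inter_eq_empty, ← card_eq_zero]
  omega

variable (c : P → Finset P) (e : P → ℕ)

/-- an element covering `x` on the far side has a larger label -/
def aF (x : P) : Prop := ∃ z, x ∈ c z ∧ e x < e z

/-- an element of `c x` has a label at least as large -/
def aG (x : P) : Prop := ∃ y ∈ c x, e x ≤ e y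

/-- the layers of one side: `V` sites, `N1` near, `N2` next, `Sd` the whole side -/
structure Lay (V N1 N2 Sd : Finset P) : Prop where
  c2 : ∀ x, (c x).card ≤ 2
  ne : ∀ x ∈ Sd, (c x).Nonempty
  s1 : N1 ⊆ Sd
  s2 : N2 ⊆ Sd
  d12 : Disjoint N1 N2
  v1 : ∀ v ∈ V, ∀ z, v ∈ c z → z ∈ N1
  n1 : ∀ w ∈ N1, c w ⊆ V
  n2 : ∀ w ∈ N1, ∀ z, w ∈ c z → z ∈ N2
  n2' : ∀ z ∈ N2, c z ⊆ N1
  n3 : ∀ z ∈ N2, ∀ z', z ∈ c z' → z' ∈ Sd ∧ z' ∉ N1 ∧ z' ∉ N2

variable {c e} {V N1 N2 Sd : Finset P}

open Classical in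
/-- sites forced by `w` -/
noncomputable def fc (c : P → Finset P) (e : P → ℕ) (w : P) : Finset P :=
  (c w).filter (fun v => e v < e w)

open Classical in
/-- free elements of the side -/
noncomputable def fre (c : P → Finset P) (e : P → ℕ) (Sd : Finset P) : Finset P :=
  Sd.filter (fun z => ¬ aF c e z ∧ ¬ aG c e z)

open Classical in
lemma forced_eq (L : Lay c V N1 N2 Sd) :
    V.filter (fun v => aF c e v) = N1.biUnion (fc c e) := by
  ext v
  rw [mem_filter, mem_biUnion]
  unfold aF fc
  constructor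
  · rintro ⟨hv, z, hz, hlt⟩
    exact ⟨z, L.v1 v hv z hz, mem_filter.2 ⟨hz, hlt⟩⟩
  · rintro ⟨w, hw, hv⟩
    rw [mem_filter] at hv
    exact ⟨L.n1 w hw hv.1, w, hv.1, hv.2⟩

open Classical in
lemma fc_le (L : Lay c V N1 N2 Sd)
    (adm : ∀ z ∈ Sd, ¬ (aF c e z ∧ aG c e z)) {w : P} (hw : w ∈ N1) :
    (fc c e w).card ≤ e w + (if w ∈ fre c e Sd then 1 else 0) + (if aF c e w then 1 else 0) := by
  have hle : (fc c e w).card ≤ 2 := (card_filter_le _ _).trans (L.c2 w)
  have hwS := L.s1 hw
  obtain ⟨v, hv⟩ := L.ne w hwS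
  by_cases hF : aF c e w
  · rw [if_pos hF]
    have hG : ¬ aG c e w := fun h => adm w hwS ⟨hF, h⟩
    have h1 : e v < e w := by
      by_contra h
      exact hG ⟨v, hv, by omega⟩
    omega
  · by_cases hG : aG c e w
    · obtain ⟨y, hy, hle2⟩ := hG
      have h1 : (fc c e w).card ≤ 1 := by
        have h2 : fc c e w ⊆ (c w).erase y := by
          intro v hv
          unfold fc at hv
          rw [mem_filter] at hv
          rw [mem_erase]
          refine ⟨?_, hv.1⟩
          rintro rfl
          omega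
        have h3 := card_le_card h2
        rw [card_erase_of_mem hy] at h3
        have := L.c2 w
        omega
      rcases Nat.eq_zero_or_pos (e w) with h0 | h0
      · have h2 : fc c e w = ∅ := by
          unfold fc
          rw [filter_eq_empty_iff]
          intro v _
          omega
        rw [h2, card_empty]
        omega
      · omega
    · have h3 : w ∈ fre c e Sd := by
        unfold fre
        rw [mem_filter]
        exact ⟨hwS, hF, hG⟩
      rw [if_pos h3]
      have h1 : e v < e w := by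
        by_contra h
        exact hG ⟨v, hv, by omega⟩
      omega

open Classical in
lemma card_aF_le (L : Lay c V N1 N2 Sd)
    (adm : ∀ z ∈ Sd, ¬ (aF c e z ∧ aG c e z)) :
    (N1.filter (fun w => aF c e w)).card ≤
      ∑ z ∈ N2, (if 2 ≤ e z then ((c z).filter (fun w => e w < e z)).card else 0) := by
  have h1 : N1.filter (fun w => aF c e w) ⊆ N2.biUnion
      (fun z => if 2 ≤ e z then (c z).filter (fun w => e w < e z) else ∅) := by
    intro w hw
    rw [mem_filter] at hw
    obtain ⟨hw1, z, hz, hlt⟩ := hw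
    have hwS := L.s1 hw1
    obtain ⟨v, hv⟩ := L.ne w hwS
    have hG : ¬ aG c e w := fun h => adm w hwS ⟨⟨z, hz, hlt⟩, h⟩
    have h1 : e v < e w := by
      by_contra h
      exact hG ⟨v, hv, by omega⟩
    rw [mem_biUnion]
    refine ⟨z, L.n2 w hw1 z hz, ?_⟩
    rw [if_pos (by omega : 2 ≤ e z), mem_filter]
    exact ⟨hz, hlt⟩
  refine (card_le_card h1).trans (card_biUnion_le.trans (le_of_eq ?_))
  refine sum_congr rfl fun z _ => ?_
  split_ifs <;> rfl

lemma c2_le (L : Lay c V N1 N2 Sd) : ∀ z ∈ N2,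
    (if 2 ≤ e z then ((c z).filter (fun w => e w < e z)).card else 0) ≤ e z := by
  intro z _
  split_ifs with h
  · exact ((card_filter_le _ _).trans (L.c2 z)).trans h
  · exact Nat.zero_le _

open Classical in
lemma sum_split (L : Lay c V N1 N2 Sd) (f : P → ℕ) :
    ∑ x ∈ Sd, f x = ∑ x ∈ N1, f x + ∑ x ∈ N2, f x + ∑ x ∈ (Sd \ N1) \ N2, f x := by
  have h2 : N2 ⊆ Sd \ N1 := by
    intro x hx
    rw [mem_sdiff]
    exact ⟨L.s2 hx, fun h => (disjoint_left.1 L.d12 h) hx⟩
  rw [← Finset.sum_sdiff L.s1, ← Finset.sum_sdiff h2]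
  ring

open Classical in
lemma fre_split (L : Lay c V N1 N2 Sd) :
    (fre c e Sd).card = ∑ x ∈ N1, (if x ∈ fre c e Sd then 1 else 0) +
      ∑ x ∈ N2, (if x ∈ fre c e Sd then 1 else 0) +
      ∑ x ∈ (Sd \ N1) \ N2, (if x ∈ fre c e Sd then 1 else 0) := by
  rw [← sum_split L, ← card_filter]
  congr 1
  ext x
  rw [mem_filter]
  constructor
  · intro h
    refine ⟨?_, h⟩
    unfold fre at h
    exact (mem_filter.1 h).1
  · exact fun h => h.2

open Classical in
/-- the number of forced sites is at most the number of free elements plus the sum of the labels -/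
theorem forced_le (L : Lay c V N1 N2 Sd)
    (adm : ∀ z ∈ Sd, ¬ (aF c e z ∧ aG c e z)) :
    (V.filter (fun v => aF c e v)).card ≤ (fre c e Sd).card + ∑ x ∈ Sd, e x := by
  rw [forced_eq L, sum_split L, fre_split L]
  have h1 : (N1.biUnion (fc c e)).card ≤ ∑ w ∈ N1, (fc c e w).card := card_biUnion_le
  have h2 := Finset.sum_le_sum (fun w hw => fc_le L adm (w := w) hw)
  rw [sum_add_distrib, sum_add_distrib] at h2
  have h3 := card_aF_le L adm
  rw [card_filter] at h3
  have h4 := Finset.sum_le_sum (c2_le (e := e) L)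
  omega

open Classical in
/-- the case of equality, labels zero on the sites -/
theorem forced_eq_case (L : Lay c V N1 N2 Sd)
    (adm : ∀ z ∈ Sd, ¬ (aF c e z ∧ aG c e z)) (hV : ∀ v ∈ V, e v = 0)
    (heq : (fre c e Sd).card + ∑ x ∈ Sd, e x ≤ (V.filter (fun v => aF c e v)).card) :
    (∀ z ∈ Sd, z ∉ N1 → e z = 0) ∧ (∀ w ∈ N1, e w = 0 ∨ (e w = 1 ∧ (c w).card = 2)) ∧
      (∀ w ∈ N1, ∀ w' ∈ N1, w ≠ w' → 0 < e w → 0 < e w' → Disjoint (c w) (c w')) := by
  rw [forced_eq L, sum_split L, fre_split L] at heq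
  have h1 : (N1.biUnion (fc c e)).card ≤ ∑ w ∈ N1, (fc c e w).card := card_biUnion_le
  have h2 := Finset.sum_le_sum (fun w hw => fc_le L adm (w := w) hw)
  have h2' := h2
  rw [sum_add_distrib, sum_add_distrib] at h2
  have h3 := card_aF_le L adm
  rw [card_filter] at h3
  have h4 := Finset.sum_le_sum (c2_le (e := e) L)
  have hE3 : ∑ x ∈ (Sd \ N1) \ N2, e x = 0 := by omega
  have hf2 : ∑ x ∈ N2, (if x ∈ fre c e Sd then 1 else 0) = 0 := by omega
  have hz3 : ∀ x ∈ (Sd \ N1) \ N2, e x = 0 := by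
    intro x hx
    exact (Finset.sum_eq_zero_iff.1 hE3) x hx
  have heq2 := (Finset.sum_eq_sum_iff_of_le (c2_le (e := e) L)).1 (by omega)
  have hz2 : ∀ z ∈ N2, e z = 0 := by
    intro z hz
    by_contra hne
    have h5 := heq2 z hz
    have h6 : 2 ≤ e z := by
      by_contra h7
      rw [if_neg h7] at h5
      omega
    rw [if_pos h6] at h5
    have h7 : ((c z).filter (fun w => e w < e z)).card ≤ (c z).card := card_filter_le _ _
    have h8 := L.c2 z
    have h9 : (c z).filter (fun w => e w < e z) = c z :=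
      eq_of_subset_of_card_le (filter_subset _ _) (by omega)
    have h10 := (Finset.sum_eq_zero_iff.1 hf2) z hz
    refine absurd h10 ?_
    rw [if_pos]
    · exact one_ne_zero
    unfold fre
    rw [mem_filter]
    refine ⟨L.s2 hz, ?_, ?_⟩
    · rintro ⟨z', hz', hlt⟩
      obtain ⟨a1, a2, a3⟩ := L.n3 z hz z' hz'
      have := hz3 z' (mem_sdiff.2 ⟨mem_sdiff.2 ⟨a1, a2⟩, a3⟩)
      omega
    · rintro ⟨y, hy, hle⟩
      rw [← h9, mem_filter] at hy
      omega
  have hE2 : ∑ x ∈ N2, e x = 0 := Finset.sum_eq_zero hz2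
  have hF0 : ∑ w ∈ N1, (if aF c e w then 1 else 0) = 0 := by omega
  have heq1 := (Finset.sum_eq_sum_iff_of_le (fun w hw => fc_le L adm (w := w) hw)).1 (by
    rw [sum_add_distrib, sum_add_distrib]
    omega)
  have hd : ∑ w ∈ N1, (fc c e w).card ≤ (N1.biUnion (fc c e)).card := by omega
  have hN1 : ∀ w ∈ N1, e w = 0 ∨ (e w = 1 ∧ (c w).card = 2) := by
    intro w hw
    have h5 := heq1 w hw
    have h6 := (Finset.sum_eq_zero_iff.1 hF0) w hw
    rw [h6] at h5
    have hFw : ¬ aF c e w := by
      intro h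
      rw [if_pos h] at h6
      exact one_ne_zero h6
    by_cases h0 : e w = 0
    · exact Or.inl h0
    right
    have hG : ¬ aG c e w := by
      rintro ⟨y, hy, hle⟩
      have := hV y (L.n1 w hw hy)
      omega
    have h7 : w ∈ fre c e Sd := by
      unfold fre
      rw [mem_filter]
      exact ⟨L.s1 hw, hFw, hG⟩
    rw [if_pos h7] at h5
    have h8 : (fc c e w).card ≤ (c w).card := card_filter_le _ _
    have h9 := L.c2 w
    omega
  refine ⟨?_, hN1, ?_⟩
  · intro z hz hz1
    by_cases h : z ∈ N2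
    · exact hz2 z h
    · exact hz3 z (mem_sdiff.2 ⟨mem_sdiff.2 ⟨hz, hz1⟩, h⟩)
  · intro w hw w' hw' hne h0 h0'
    have hfc : ∀ w ∈ N1, 0 < e w → fc c e w = c w := by
      intro w hw h0
      unfold fc
      rw [filter_eq_self]
      intro v hv
      rw [hV v (L.n1 w hw hv)]
      exact h0
    rw [← hfc w hw h0, ← hfc w' hw' h0']
    exact disj_of_card_biUnion hd hw hw' hne

end Abs

end Pool.Agent.GaussPoset.Win
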