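import Pool.Agent.W_448kk_h94.KkA
import Pool.Agent.W_448win_h16.NormE
import Pool.Agent.W_448win_h16.RkC
import Pool.Agent.W_448win_h16.FactA

/-! The cost of a configuration: forced sites, free elements, energy (MP_448cb3_co). -/

namespace Pool.Agent.GaussPoset.Win

set_option linter.unusedSectionVars false

open Finset

universe u

variable {P : Type u} [Fintype P] [PartialOrder P] [DecidableEq P] {r : ℕ}

/-- the lower elements -/
noncomputable def sdL (P : Type u) [Fintype P] [PartialOrder P] [DecidableEq P] (i : ℕ) :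
    Finset P := univ.filter (fun z : P => i < lev z)

/-- the upper elements -/
noncomputable def sdU (P : Type u) [Fintype P] [PartialOrder P] [DecidableEq P] (i : ℕ) :
    Finset P := univ.filter (fun z : P => lev z < i)

lemma mem_sdL {i : ℕ} {x : P} : x ∈ sdL P i ↔ i < lev x := by unfold sdL; simp

lemma mem_sdU {i : ℕ} {x : P} : x ∈ sdU P i ↔ lev x < i := by unfold sdU; simp

/-- levels above the sites -/
noncomputable def lU (P : Type u) [Fintype P] [PartialOrder P] [DecidableEq P] (i m : ℕ) :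
    Finset P := univ.filter (fun z : P => lev z + m = i)

lemma mem_lU {i m : ℕ} {x : P} : x ∈ lU P i m ↔ lev x + m = i := by unfold lU; simp

lemma lay_L (H : Gr P r) (i : ℕ) : Lay (uc (P := P)) (lv P i) (lv P (i + 1)) (lv P (i + 2))
    (sdL P i) where
  c2 := uc_card_le H
  ne := fun x hx => by
    rw [mem_sdL] at hx
    exact uc_nonempty H (by omega)
  s1 := fun x hx => by
    rw [mem_lv] at hx
    rw [mem_sdL]
    omega
  s2 := fun x hx => by
    rw [mem_lv] at hx
    rw [mem_sdL]
    omega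
  d12 := by
    rw [disjoint_left]
    intro x h1 h2
    rw [mem_lv] at h1 h2
    omega
  v1 := fun v hv z hz => by
    rw [mem_lv] at hv ⊢
    have := lev_uc H hz
    omega
  n1 := fun w hw v hv => by
    rw [mem_lv] at hw ⊢
    have := lev_uc H hv
    omega
  n2 := fun w hw z hz => by
    rw [mem_lv] at hw ⊢
    have := lev_uc H hz
    omega
  n2' := fun z hz w hw => by
    rw [mem_lv] at hz ⊢
    have := lev_uc H hw
    omega
  n3 := fun z hz z' hz' => by
    rw [mem_lv] at hz
    rw [mem_sdL, mem_lv, mem_lv]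
    have := lev_uc H hz'
    omega

lemma lay_U (H : Gr P r) {i : ℕ} (hi : i ≤ r) :
    Lay (dc (P := P)) (lv P i) (lU P i 1) (lU P i 2) (sdU P i) where
  c2 := dc_card_le H
  ne := fun x hx => by
    rw [mem_sdU] at hx
    exact dc_nonempty H (by omega)
  s1 := fun x hx => by
    rw [mem_lU] at hx
    rw [mem_sdU]
    omega
  s2 := fun x hx => by
    rw [mem_lU] at hx
    rw [mem_sdU]
    omega
  d12 := by
    rw [disjoint_left]
    intro x h1 h2
    rw [mem_lU] at h1 h2
    omega
  v1 := fun v hv z hz => by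
    rw [mem_lv] at hv
    rw [mem_lU]
    have := lev_dc H hz
    omega
  n1 := fun w hw v hv => by
    rw [mem_lU] at hw
    rw [mem_lv]
    have := lev_dc H hv
    omega
  n2 := fun w hw z hz => by
    rw [mem_lU] at hw ⊢
    have := lev_dc H hz
    omega
  n2' := fun z hz w hw => by
    rw [mem_lU] at hz ⊢
    have := lev_dc H hw
    omega
  n3 := fun z hz z' hz' => by
    rw [mem_lU] at hz
    rw [mem_sdU, mem_lU, mem_lU]
    have := lev_dc H hz'
    omega

lemma aF_uc {e : P → ℕ} {x : P} : aF uc e x ↔ FD e x := by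
  unfold aF FD
  simp only [mem_uc]

lemma aG_uc {e : P → ℕ} {x : P} : aG uc e x ↔ GU e x := by
  unfold aG GU
  simp only [mem_uc]

lemma aF_dc {e : P → ℕ} {x : P} : aF dc e x ↔ FU e x := by
  unfold aF FU
  simp only [mem_dc]

lemma aG_dc {e : P → ℕ} {x : P} : aG dc e x ↔ GD e x := by
  unfold aG GD
  simp only [mem_dc]

open Classical in
lemma AL_af {i : ℕ} {e : P → ℕ} : AL i e = (lv P i).filter (fun v => aF uc e v) := by
  unfold AL
  ext v
  simp only [mem_filter, aF_uc]

open Classical in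
lemma AU_af {i : ℕ} {e : P → ℕ} : AU i e = (lv P i).filter (fun v => aF dc e v) := by
  unfold AU
  ext v
  simp only [mem_filter, aF_dc]

lemma pL_fre {i : ℕ} {e : P → ℕ} : pL i e = (fre uc e (sdL P i)).card := by
  classical
  unfold pL fre
  congr 1
  ext z
  simp only [mem_filter, mem_univ, true_and, mem_sdL, aF_uc, aG_uc]

lemma pU_fre {i : ℕ} {e : P → ℕ} : pU i e = (fre dc e (sdU P i)).card := by
  classical
  unfold pU fre
  congr 1
  ext z
  simp only [mem_filter, mem_univ, true_and, mem_sdU, aF_dc, aG_dc]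

lemma adm_L {i : ℕ} {e : P → ℕ} (hA : AdmL i e) :
    ∀ z ∈ sdL P i, ¬ (aF uc e z ∧ aG uc e z) := by
  intro z hz
  rw [mem_sdL] at hz
  rw [aF_uc, aG_uc]
  exact hA z hz

lemma adm_U {i : ℕ} {e : P → ℕ} (hA : AdmU i e) :
    ∀ z ∈ sdU P i, ¬ (aF dc e z ∧ aG dc e z) := by
  intro z hz
  rw [mem_sdU] at hz
  rw [aF_dc, aG_dc]
  exact hA z hz

/-- COST, lower part: forced sites ≤ free elements + energy -/
theorem card_AL_le (H : Gr P r) {i : ℕ} {e : P → ℕ} (hA : AdmL i e) :
    (AL i e).card ≤ pL i e + ∑ z ∈ sdL P i, e z := by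
  classical
  have h := forced_le (lay_L H i) (adm_L hA)
  rw [pL_fre, AL_af]
  convert h

/-- COST, upper part -/
theorem card_AU_le (H : Gr P r) {i : ℕ} (hi : i ≤ r) {e : P → ℕ} (hA : AdmU i e) :
    (AU i e).card ≤ pU i e + ∑ z ∈ sdU P i, e z := by
  classical
  have h := forced_le (lay_U H hi) (adm_U hA)
  rw [pU_fre, AU_af]
  convert h

/-- the energy is the sum over the three parts -/
lemma kk_sum_parts (i : ℕ) (f : P → ℕ) :
    ∑ x, f x = ∑ z ∈ sdL P i, f z + ∑ z ∈ lv P i, f z + ∑ z ∈ sdU P i, f z := by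
  classical
  have h1 : (univ : Finset P) = (sdL P i ∪ lv P i) ∪ sdU P i := by
    ext x
    simp only [mem_univ, mem_union, mem_sdL, mem_sdU, mem_lv, true_iff]
    omega
  rw [h1, sum_union, sum_union]
  · rw [disjoint_left]
    intro x h1 h2
    rw [mem_sdL] at h1
    rw [mem_lv] at h2
    omega
  · rw [disjoint_left]
    intro x h1 h2
    rw [mem_union, mem_sdL, mem_lv] at h1
    rw [mem_sdU] at h2
    omega

/-- COST -/
theorem cost_le (H : Gr P r) {i : ℕ} (hi : i ≤ r) {e : P → ℕ} (hA : AdmL i e) (hB : AdmU i e) :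
    (AL i e).card + (AU i e).card ≤ pL i e + pU i e + ∑ x, e x := by
  have h1 := card_AL_le H hA
  have h2 := card_AU_le H hi hB
  have h3 := kk_sum_parts i e
  omega

/-- the sites of a near element -/
noncomputable def ns (i : ℕ) (x : P) : Finset P := if lev x = i + 1 then uc x else dc x

/-- disjoint families of double near elements -/
def Dj (i : ℕ) (F : Finset P) : Prop :=
  F ⊆ dbL P i ∪ dbU P i ∧ ∀ x ∈ F, ∀ y ∈ F, x ≠ y → Disjoint (ns i x) (ns i y)

/-- indicator function -/
def indK (F : Finset P) : P → ℕ := fun x => if x ∈ F then 1 else 0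

/-- the extremal configurations are the indicators of disjoint families -/
theorem extr_ind (H : Gr P r) {i : ℕ} (hi : i ≤ r) {e : P → ℕ} (hA : AdmL i e) (hB : AdmU i e)
    (hD : Disjoint (AL i e) (AU i e))
    (h : pL i e + pU i e + ∑ x, e x ≤ (AL i e).card + (AU i e).card) :
    ∃ F, Dj i F ∧ e = indK F := by
  classical
  have h1 := card_AL_le H hA
  have h2 := card_AU_le H hi hB
  have h3 := kk_sum_parts i e
  have hV0 : ∑ z ∈ lv P i, e z = 0 := by omega
  have hV : ∀ v ∈ lv P i, e v = 0 := Finset.sum_eq_zero_iff.1 hV0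
  have hL := forced_eq_case (lay_L H i) (adm_L hA) hV (by
    have : pL i e + ∑ z ∈ sdL P i, e z ≤ (AL i e).card := by omega
    rw [pL_fre, AL_af] at this
    convert this)
  have hU := forced_eq_case (lay_U H hi) (adm_U hB) hV (by
    have : pU i e + ∑ z ∈ sdU P i, e z ≤ (AU i e).card := by omega
    rw [pU_fre, AU_af] at this
    convert this)
  obtain ⟨l1, l2, l3⟩ := hL
  obtain ⟨u1, u2, u3⟩ := hU
  have hmem : ∀ x, 0 < e x → (e x = 1 ∧ (x ∈ dbL P i ∨ x ∈ dbU P i)) := by
    intro x hx
    rcases Nat.lt_trichotomy (lev x) i with h4 | h4 | h4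
    · have h5 : x ∈ lU P i 1 := by
        by_contra h6
        have := u1 x (mem_sdU.2 h4) h6
        omega
      have h6 := u2 x h5
      rw [mem_lU] at h5
      refine ⟨by omega, Or.inr (mem_dbU.2 ⟨h5, by omega⟩)⟩
    · have := hV x (mem_lv.2 h4)
      omega
    · have h5 : x ∈ lv P (i + 1) := by
        by_contra h6
        have := l1 x (mem_sdL.2 h4) h6
        omega
      have h6 := l2 x h5
      rw [mem_lv] at h5
      refine ⟨by omega, Or.inl (mem_dbL.2 ⟨h5, by omega⟩)⟩
  refine ⟨univ.filter (fun x => 0 < e x), ⟨?_, ?_⟩, ?_⟩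
  · intro x hx
    rw [mem_filter] at hx
    rw [mem_union]
    exact (hmem x hx.2).2
  · intro x hx y hy hne
    rw [mem_filter] at hx hy
    have hALx : ∀ x, x ∈ dbL P i → 0 < e x → uc x ⊆ AL i e := by
      intro x hx0 hx1 v hv
      rw [mem_dbL] at hx0
      have h7 := lev_uc H hv
      unfold AL
      rw [mem_filter, mem_lv]
      refine ⟨by omega, x, mem_uc.1 hv, ?_⟩
      rw [hV v (mem_lv.2 (by omega))]
      exact hx1
    have hAUx : ∀ x, x ∈ dbU P i → 0 < e x → dc x ⊆ AU i e := by
      intro x hx0 hx1 v hv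
      rw [mem_dbU] at hx0
      have h7 := lev_dc H hv
      unfold AU
      rw [mem_filter, mem_lv]
      refine ⟨by omega, x, mem_dc.1 hv, ?_⟩
      rw [hV v (mem_lv.2 (by omega))]
      exact hx1
    have hnL : ∀ x, x ∈ dbL P i → ns i x = uc x := by
      intro x hx
      unfold ns
      rw [if_pos (mem_dbL.1 hx).1]
    have hnU : ∀ x, x ∈ dbU P i → ns i x = dc x := by
      intro x hx
      unfold ns
      rw [if_neg]
      have := (mem_dbU.1 hx).1
      omega
    rcases (hmem x hx.2).2 with hx0 | hx0 <;> rcases (hmem y hy.2).2 with hy0 | hy0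
    · rw [hnL x hx0, hnL y hy0]
      exact l3 x (mem_lv.2 (mem_dbL.1 hx0).1) y (mem_lv.2 (mem_dbL.1 hy0).1) hne hx.2 hy.2
    · rw [hnL x hx0, hnU y hy0]
      exact disjoint_of_subset_left (hALx x hx0 hx.2)
        (disjoint_of_subset_right (hAUx y hy0 hy.2) hD)
    · rw [hnU x hx0, hnL y hy0]
      exact (disjoint_of_subset_left (hALx y hy0 hy.2)
        (disjoint_of_subset_right (hAUx x hx0 hx.2) hD)).symm
    · rw [hnU x hx0, hnU y hy0]
      exact u3 x (mem_lU.2 (mem_dbU.1 hx0).1) y (mem_lU.2 (mem_dbU.1 hy0).1) hne hx.2 hy.2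
  · funext x
    unfold indK
    split_ifs with h4
    · rw [mem_filter] at h4
      exact (hmem x h4.2).1
    · rw [mem_filter] at h4
      by_contra h5
      exact h4 ⟨mem_univ _, Nat.pos_of_ne_zero h5⟩

end Pool.Agent.GaussPoset.Win
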