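import Pool.Agent.W_448kk_h94.KkB

/-! The (k,k) identity (MP_448cb3_co). -/

namespace Pool.Agent.GaussPoset.Win

set_option linter.unusedSectionVars false

open Finset

universe u

variable {P : Type u} [Fintype P] [PartialOrder P] [DecidableEq P] {r : ℕ}

lemma indK_of_mem {F : Finset P} {x : P} (h : x ∈ F) : indK F x = 1 := by
  unfold indK; rw [if_pos h]

lemma indK_of_not {F : Finset P} {x : P} (h : x ∉ F) : indK F x = 0 := by
  unfold indK; rw [if_neg h]

lemma indK_pos {F : Finset P} {x : P} : 0 < indK F x ↔ x ∈ F := by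
  unfold indK
  split_ifs with h <;> simp [h]

lemma indK_le (F : Finset P) (x : P) : indK F x ≤ 1 := by
  unfold indK
  split_ifs <;> omega

lemma indK_inj {F G : Finset P} (h : indK F = indK G) : F = G := by
  ext x
  rw [← indK_pos, ← indK_pos (F := G), h]

lemma sum_indK (F : Finset P) : ∑ x, indK F x = F.card := by
  unfold indK
  rw [← card_filter]
  congr 1
  ext x
  simp

section fam

variable {i : ℕ} {F : Finset P}

lemma Dj_lev (h : Dj i F) {x : P} (hx : x ∈ F) : lev x = i + 1 ∨ lev x + 1 = i := by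
  have := h.1 hx
  rw [mem_union, mem_dbL, mem_dbU] at this
  tauto

lemma Dj_site (h : Dj i F) {x : P} (hx : lev x = i) : indK F x = 0 := by
  apply indK_of_not
  intro h1
  have := Dj_lev h h1
  omega

lemma Dj_FD (H : Gr P r) (h : Dj i F) {z : P} (hz : i < lev z) : ¬ FD (indK F) z := by
  rintro ⟨z', hz', hlt⟩
  have h1 := (H.covBy_iff.1 hz').2
  have h2 : z' ∈ F := indK_pos.1 (by omega)
  have := Dj_lev h h2
  omega

lemma Dj_FU (H : Gr P r) (h : Dj i F) {z : P} (hz : lev z < i) : ¬ FU (indK F) z := by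
  rintro ⟨z', hz', hlt⟩
  have h1 := (H.covBy_iff.1 hz').2
  have h2 : z' ∈ F := indK_pos.1 (by omega)
  have := Dj_lev h h2
  omega

lemma Dj_GU (H : Gr P r) (h : Dj i F) {z : P} (hz : i < lev z) : GU (indK F) z ↔ z ∉ F := by
  constructor
  · rintro ⟨y, hy, hle⟩ hz1
    have h1 := (H.covBy_iff.1 hy).2
    have h2 := Dj_lev h hz1
    rw [indK_of_mem hz1, Dj_site h (x := y) (by omega)] at hle
    omega
  · intro hz1
    obtain ⟨y, hy⟩ := uc_nonempty H (x := z) (by omega)
    refine ⟨y, mem_uc.1 hy, ?_⟩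
    rw [indK_of_not hz1]
    exact Nat.zero_le _

lemma Dj_GD (H : Gr P r) (hi : i ≤ r) (h : Dj i F) {z : P} (hz : lev z < i) :
    GD (indK F) z ↔ z ∉ F := by
  constructor
  · rintro ⟨y, hy, hle⟩ hz1
    have h1 := (H.covBy_iff.1 hy).2
    have h2 := Dj_lev h hz1
    rw [indK_of_mem hz1, Dj_site h (x := y) (by omega)] at hle
    omega
  · intro hz1
    obtain ⟨y, hy⟩ := dc_nonempty H (x := z) (by omega)
    refine ⟨y, mem_dc.1 hy, ?_⟩
    rw [indK_of_not hz1]
    exact Nat.zero_le _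

lemma ns_L {x : P} (hx : x ∈ dbL P i) : ns i x = uc x := by
  unfold ns
  rw [if_pos (mem_dbL.1 hx).1]

lemma ns_U {x : P} (hx : x ∈ dbU P i) : ns i x = dc x := by
  unfold ns
  rw [if_neg]
  have := (mem_dbU.1 hx).1
  omega

lemma ns_card {x : P} (hx : x ∈ dbL P i ∪ dbU P i) : (ns i x).card = 2 := by
  rcases mem_union.1 hx with h | h
  · rw [ns_L h]
    exact (mem_dbL.1 h).2
  · rw [ns_U h]
    exact (mem_dbU.1 h).2

lemma ns_sub (H : Gr P r) {x : P} (hx : x ∈ dbL P i ∪ dbU P i) : ns i x ⊆ lv P i := by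
  intro v hv
  rw [mem_lv]
  rcases mem_union.1 hx with h | h
  · rw [ns_L h] at hv
    have h1 := lev_uc H hv
    have h2 := (mem_dbL.1 h).1
    omega
  · rw [ns_U h] at hv
    have h1 := lev_dc H hv
    have h2 := (mem_dbU.1 h).1
    omega

lemma Dj_AL (H : Gr P r) (h : Dj i F) : AL i (indK F) = (F ∩ dbL P i).biUnion (ns i) := by
  classical
  ext v
  unfold AL
  rw [mem_filter, mem_lv, mem_biUnion]
  unfold FD
  constructor
  · rintro ⟨hv, z', hz', hlt⟩
    have h1 := (H.covBy_iff.1 hz').2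
    have h2 : z' ∈ F := indK_pos.1 (by omega)
    have h3 := h.1 h2
    have h4 : z' ∈ dbL P i := by
      rcases mem_union.1 h3 with h5 | h5
      · exact h5
      · have := (mem_dbU.1 h5).1
        omega
    exact ⟨z', mem_inter.2 ⟨h2, h4⟩, by rw [ns_L h4]; exact mem_uc.2 hz'⟩
  · rintro ⟨w, hw, hv⟩
    rw [mem_inter] at hw
    rw [ns_L hw.2] at hv
    have h1 := lev_uc H hv
    have h2 := (mem_dbL.1 hw.2).1
    refine ⟨by omega, w, mem_uc.1 hv, ?_⟩
    rw [indK_of_mem hw.1, Dj_site h (x := v) (by omega)]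
    exact one_pos

lemma Dj_AU (H : Gr P r) (h : Dj i F) : AU i (indK F) = (F ∩ dbU P i).biUnion (ns i) := by
  classical
  ext v
  unfold AU
  rw [mem_filter, mem_lv, mem_biUnion]
  unfold FU
  constructor
  · rintro ⟨hv, z', hz', hlt⟩
    have h1 := (H.covBy_iff.1 hz').2
    have h2 : z' ∈ F := indK_pos.1 (by omega)
    have h3 := h.1 h2
    have h4 : z' ∈ dbU P i := by
      rcases mem_union.1 h3 with h5 | h5
      · have := (mem_dbL.1 h5).1
        omega
      · exact h5
    exact ⟨z', mem_inter.2 ⟨h2, h4⟩, by rw [ns_U h4]; exact mem_dc.2 hz'⟩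
  · rintro ⟨w, hw, hv⟩
    rw [mem_inter] at hw
    rw [ns_U hw.2] at hv
    have h1 := lev_dc H hv
    have h2 := (mem_dbU.1 hw.2).1
    refine ⟨by omega, w, mem_dc.1 hv, ?_⟩
    rw [indK_of_mem hw.1, Dj_site h (x := v) (by omega)]
    exact one_pos

lemma Dj_bi_card (h : Dj i F) {G : Finset P} (hG : G ⊆ F) :
    (G.biUnion (ns i)).card = 2 * G.card := by
  rw [card_biUnion (fun x hx y hy hne => h.2 x (hG hx) y (hG hy) hne)]
  rw [sum_congr rfl (fun x hx => ns_card (h.1 (hG hx)))]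
  rw [sum_const, smul_eq_mul, mul_comm]

lemma Dj_disj (H : Gr P r) (h : Dj i F) : Disjoint (AL i (indK F)) (AU i (indK F)) := by
  rw [Dj_AL H h, Dj_AU H h, disjoint_left]
  intro v h1 h2
  rw [mem_biUnion] at h1 h2
  obtain ⟨x, hx, hv⟩ := h1
  obtain ⟨y, hy, hv'⟩ := h2
  rw [mem_inter] at hx hy
  have hne : x ≠ y := by
    rintro rfl
    have h3 := (mem_dbL.1 hx.2).1
    have h4 := (mem_dbU.1 hy.2).1
    omega
  exact (disjoint_left.1 (h.2 x hx.1 y hy.1 hne) hv) hv'

lemma Dj_card (h : Dj i F) : F.card = (F ∩ dbL P i).card + (F ∩ dbU P i).card := by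
  rw [← card_union_of_disjoint]
  · congr 1
    rw [← inter_union_distrib_left]
    exact (inter_eq_left.2 h.1).symm
  · rw [disjoint_left]
    intro x h1 h2
    rw [mem_inter] at h1 h2
    have h3 := (mem_dbL.1 h1.2).1
    have h4 := (mem_dbU.1 h2.2).1
    omega

lemma Dj_pL (H : Gr P r) (h : Dj i F) : pL i (indK F) = (F ∩ dbL P i).card := by
  classical
  unfold pL
  congr 1
  ext z
  rw [mem_filter, mem_inter]
  constructor
  · rintro ⟨_, h1, h2, h3⟩
    rw [Dj_GU H h h1, not_not] at h3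
    refine ⟨h3, ?_⟩
    rcases mem_union.1 (h.1 h3) with h4 | h4
    · exact h4
    · have := (mem_dbU.1 h4).1
      omega
  · rintro ⟨h1, h2⟩
    have h3 := (mem_dbL.1 h2).1
    refine ⟨mem_univ _, by omega, Dj_FD H h (by omega), ?_⟩
    rw [Dj_GU H h (by omega), not_not]
    exact h1

lemma Dj_pU (H : Gr P r) (hi : i ≤ r) (h : Dj i F) : pU i (indK F) = (F ∩ dbU P i).card := by
  classical
  unfold pU
  congr 1
  ext z
  rw [mem_filter, mem_inter]
  constructor
  · rintro ⟨_, h1, h2, h3⟩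
    rw [Dj_GD H hi h h1, not_not] at h3
    refine ⟨h3, ?_⟩
    rcases mem_union.1 (h.1 h3) with h4 | h4
    · have := (mem_dbL.1 h4).1
      omega
    · exact h4
  · rintro ⟨h1, h2⟩
    have h3 := (mem_dbU.1 h2).1
    refine ⟨mem_univ _, by omega, Dj_FU H h (by omega), ?_⟩
    rw [Dj_GD H hi h (by omega), not_not]
    exact h1

lemma Dj_two_le (H : Gr P r) (h : Dj i F) : 2 * F.card ≤ (lv P i).card := by
  rw [← Dj_bi_card h (Subset.refl F)]
  refine card_le_card ?_
  rw [biUnion_subset]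
  exact fun x hx => ns_sub H (h.1 hx)

/-- the term of an extremal configuration -/
theorem trm_ind (H : Gr P r) (hi : i ≤ r) (h : Dj i F) :
    trm i (indK F) = dd ^ ((lv P i).card - F.card) *
      (xi ^ (F ∩ dbU P i).card * xx ^ (2 * (F ∩ dbL P i).card)) := by
  classical
  have hA : AdmL i (indK F) := fun z hz h1 => Dj_FD H h hz h1.1
  have hB : AdmU i (indK F) := fun z hz h1 => Dj_FU H h hz h1.1
  have haL : aL i (indK F) = 0 := by
    unfold aL
    rw [card_eq_zero, filter_eq_empty_iff]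
    rintro z _ ⟨h1, h2⟩
    exact Dj_FD H h h1 h2
  have haU : aU i (indK F) = 0 := by
    unfold aU
    rw [card_eq_zero, filter_eq_empty_iff]
    rintro z _ ⟨h1, h2⟩
    exact Dj_FU H h h1 h2
  have h1 : (AL i (indK F)).card = 2 * (F ∩ dbL P i).card := by
    rw [Dj_AL H h, Dj_bi_card h inter_subset_left]
  have h2 : (AU i (indK F)).card = 2 * (F ∩ dbU P i).card := by
    rw [Dj_AU H h, Dj_bi_card h inter_subset_left]
  have h3 := Dj_two_le H h
  have h4 := Dj_card h
  unfold trm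
  rw [if_pos (Dj_disj H h)]
  unfold cw
  rw [if_pos ⟨hA, hB⟩, haL, haU, Dj_pL H h, Dj_pU H hi h, h1, h2]
  have h5 : (lv P i).card - F.card = ((F ∩ dbL P i).card + (F ∩ dbU P i).card) +
      ((lv P i).card - 2 * (F ∩ dbL P i).card - 2 * (F ∩ dbU P i).card) := by omega
  rw [h5, pow_add dd ((F ∩ dbL P i).card + (F ∩ dbU P i).card)]
  rw [pow_zero, zero_add]
  ring

lemma Dj_not_cheap (H : Gr P r) (hi : i ≤ r) (h : Dj i F) {k : ℕ} (hk : 1 ≤ k)
    (hF : F.card = k) : ¬ Cheap (k - 1) i (indK F) := by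
  have hA : AdmL i (indK F) := fun z hz h1 => Dj_FD H h hz h1.1
  have hB : AdmU i (indK F) := fun z hz h1 => Dj_FU H h hz h1.1
  have h1 : (AL i (indK F)).card = 2 * (F ∩ dbL P i).card := by
    rw [Dj_AL H h, Dj_bi_card h inter_subset_left]
  have h2 : (AU i (indK F)).card = 2 * (F ∩ dbU P i).card := by
    rw [Dj_AU H h, Dj_bi_card h inter_subset_left]
  have h4 := Dj_card h
  have h5 := Dj_pL H h
  have h6 := Dj_pU H hi h
  rintro (h7 | h7 | h7 | h7)
  · exact h7 hA
  · exact h7 hB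
  · exact h7 (Dj_disj H h)
  · omega

end fam

open Classical in
/-- disjoint families of size `k` -/
noncomputable def FF (P : Type u) [Fintype P] [PartialOrder P] [DecidableEq P] (i k : ℕ) :
    Finset (Finset P) := ((dbL P i ∪ dbU P i).powersetCard k).filter (fun F => Dj i F)

lemma mem_FF {i k : ℕ} {F : Finset P} : F ∈ FF P i k ↔ Dj i F ∧ F.card = k := by
  classical
  unfold FF
  rw [mem_filter, mem_powersetCard]
  constructor
  · rintro ⟨⟨_, h2⟩, h3⟩
    exact ⟨h3, h2⟩
  · rintro ⟨h1, h2⟩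
    exact ⟨⟨h1.1, h2⟩, h1⟩

open Classical in
/-- the configurations of energy `k` which are not cheap -/
lemma noncheap_eq (H : Gr P r) {i : ℕ} (hi : i ≤ r) {k : ℕ} (hk : 1 ≤ k) :
    ((univ : Finset P).piAntidiag k).filter (fun e => ¬ Cheap (k - 1) i e) =
      (FF P i k).image indK := by
  ext e
  rw [mem_filter, mem_piAntidiag, mem_image]
  constructor
  · rintro ⟨⟨h1, _⟩, h2⟩
    have h1' : ∑ x, e x = k := h1
    unfold Cheap at h2
    push Not at h2
    obtain ⟨hA, hB, hD, h3⟩ := h2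
    obtain ⟨F, hF, rfl⟩ := extr_ind H hi hA hB hD (by omega)
    rw [sum_indK] at h1'
    exact ⟨F, mem_FF.2 ⟨hF, h1'⟩, rfl⟩
  · rintro ⟨F, hF, rfl⟩
    rw [mem_FF] at hF
    refine ⟨⟨?_, fun x _ => mem_univ x⟩, Dj_not_cheap H hi hF.1 hk hF.2⟩
    have := sum_indK F
    rw [hF.2] at this
    exact this

/-- THE (k,k) IDENTITY: in a Gaussian poset, for `1 ≤ k`, the signed number of families of `k` double near
elements with pairwise disjoint sites is zero; the sign is `-1` to the number of upper elements. -/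
theorem kk (H : Gr P r) {i : ℕ} (hi : i ≤ r) {k : ℕ} (hk : 1 ≤ k) :
    ∑ F ∈ FF P i k, (-1 : ℤ) ^ (F ∩ dbU P i).card = 0 := by
  classical
  rcases (FF P i k).eq_empty_or_nonempty with h0 | ⟨F0, hF0⟩
  · rw [h0, sum_empty]
  have h1 : 2 * k ≤ (lv P i).card := by
    rw [mem_FF] at hF0
    have := Dj_two_le H hF0.1
    omega
  have h2 : dd ^ ((lv P i).card - (k - 1)) ∣ ∑ e ∈ (univ : Finset P).piAntidiag k, trm i e :=
    (pow_dvd_pow dd (Nat.sub_le _ _)).trans (dvd_sum_trm H hi k)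
  rw [← sum_filter_add_sum_filter_not ((univ : Finset P).piAntidiag k)
    (fun e => Cheap (k - 1) i e)] at h2
  have h3 : dd ^ ((lv P i).card - (k - 1)) ∣
      ∑ e ∈ ((univ : Finset P).piAntidiag k).filter (fun e => Cheap (k - 1) i e), trm i e := by
    refine dvd_sum fun e he => ?_
    rw [mem_filter] at he
    exact dvd_trm_of_cheap he.2
  have h4 := (dvd_add_right h3).mp h2
  rw [noncheap_eq H hi hk, sum_image (fun F _ G _ h => indK_inj h)] at h4
  have h5 : ∑ F ∈ FF P i k, trm i (indK F) = dd ^ ((lv P i).card - k) * ∑ F ∈ FF P i k,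
      (xi ^ (F ∩ dbU P i).card * xx ^ (2 * (F ∩ dbL P i).card)) := by
    rw [mul_sum]
    refine sum_congr rfl fun F hF => ?_
    rw [mem_FF] at hF
    rw [trm_ind H hi hF.1, hF.2]
  rw [h5, show (lv P i).card - (k - 1) = ((lv P i).card - k) + 1 by omega] at h4
  have h6 := cc_of_dvd h4
  rw [map_sum] at h6
  rw [← h6]
  refine sum_congr rfl fun F _ => ?_
  rw [map_mul, map_pow, map_pow, cc_xi, cc_xx, pow_mul]
  norm_num

end Pool.Agent.GaussPoset.Win
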